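import Mathlib
import Pool.Agent.V11306.SpMod

/-!
# Values of the quadratic-residue root polynomial at cube roots of unity: the prime `107`
-/

set_option autoImplicit false

namespace Pool.Agent.Results.MP_06877e_nt.FailsAt107

open Finset

/-- `S_p(x)` is the product of the factors `x - exp (2 π i k² / p)`, `1 ≤ k ≤ (p - 1) / 2`. -/
noncomputable def S (p : ℕ) (x : ℂ) : ℂ :=
  ∏ k ∈ Icc 1 ((p - 1) / 2), (x - Complex.exp (2 * Real.pi * Complex.I * (k : ℂ) ^ 2 / p))

/-- `(x, y)` is the least solution in positive integers of `3 x² + 4 (p/3) = p y²`. -/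
def IsLeastSolution (p : ℕ) (x y : ℕ) : Prop :=
  0 < x ∧ 0 < y ∧ 3 * (x : ℤ) ^ 2 + 4 * jacobiSym p 3 = p * (y : ℤ) ^ 2 ∧
    ∀ x' y' : ℕ, 0 < x' → 0 < y' → 3 * (x' : ℤ) ^ 2 + 4 * jacobiSym p 3 = p * (y' : ℤ) ^ 2 →
      x ≤ x' ∧ y ≤ y'

/-- `ω = exp (2 π i / 3)` -/
noncomputable def ω : ℂ := Complex.exp (2 * Real.pi * Complex.I / 3)

lemma S_eq : S = V11306.SpMod.S := rfl

instance : Fact (Nat.Prime 643) := ⟨by norm_num⟩

lemma prim : IsPrimitiveRoot ((49 : ℕ) : ZMod 643) 321 := by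
  have h : orderOf ((49 : ℕ) : ZMod 643) = 321 := by
    apply orderOf_eq_of_pow_and_pow_div_prime (by norm_num)
    · rw [← Nat.cast_pow]
      have : ((49 ^ 321 : ℕ) : ZMod 643) = ((1 : ℕ) : ZMod 643) := by
        rw [ZMod.natCast_eq_natCast_iff']
        decide +kernel
      rw [this, Nat.cast_one]
    · intro q hq hd
      have hq' : q ∈ ({3, 107} : Finset ℕ) := by
        have : q ∈ Nat.primeFactors 321 := by
          rw [Nat.mem_primeFactors]; exact ⟨hq, hd, by norm_num⟩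
        have h2 : Nat.primeFactors 321 = {3, 107} := by
          have : (321 : ℕ) = 3 * 107 := by norm_num
          rw [this, Nat.primeFactors_mul (by norm_num) (by norm_num),
            Nat.Prime.primeFactors (by norm_num), Nat.Prime.primeFactors (by norm_num)]
          rfl
        rwa [h2] at this
      have hne : ∀ n : ℕ, 49 ^ n % 643 ≠ 1 % 643 → ((49 : ℕ) : ZMod 643) ^ n ≠ 1 := by
        intro n hn h
        apply hn
        rw [← Nat.cast_pow, ← Nat.cast_one, ZMod.natCast_eq_natCast_iff'] at h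
        exact h
      simp only [Finset.mem_insert, Finset.mem_singleton] at hq'
      rcases hq' with rfl | rfl
      · exact hne _ (by norm_num)
      · exact hne _ (by norm_num)
  rw [← h]
  exact IsPrimitiveRoot.orderOf _

lemma least : IsLeastSolution 107 12 2 := by
  have hj : jacobiSym (107 : ℕ) 3 = -1 := by norm_num
  refine ⟨by norm_num, by norm_num, by rw [hj]; norm_num, ?_⟩
  intro x y hx hy h
  rw [hj] at h
  push_cast at h
  have hy2 : 2 ≤ y := by
    by_contra hcon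
    have : y = 1 := by omega
    subst this
    have h2 : (x : ℤ) ^ 2 = 37 := by
      push_cast at h; linarith
    have h3 : x ^ 2 = 37 := by exact_mod_cast h2
    have h4 : x ≤ 6 := by nlinarith
    interval_cases x <;> omega
  refine ⟨?_, hy2⟩
  by_contra hcon
  have h1 : x ≤ 11 := by omega
  have h2 : (x : ℤ) ≤ 11 := by exact_mod_cast h1
  have h3 : (2 : ℤ) ≤ y := by exact_mod_cast hy2
  have h4 : (0 : ℤ) < x := by exact_mod_cast hx
  nlinarith

lemma crit (e : ℕ) (he : e ≤ 321)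
    (hne : (((V11306.SpMod.P 643 49 e 3 321 ((107 - 1) / 2) *
      V11306.SpMod.Q 643 49 (321 - e) 3 8667 321 ((107 - 1) / 2) : ℕ) : ZMod 643)
      - ((215 : ℕ) : ZMod 643)) ^ 2 ≠ ((46224 : ℕ) : ZMod 643)) {x : ℂ}
    (hx : x = Complex.exp (2 * Real.pi * Complex.I / (321 : ℕ)) ^ e) :
    (‖S 107 x‖ ^ 2 - ((215 : ℕ) : ℝ)) ^ 2 ≠ ((46224 : ℕ) : ℝ) := by
  rw [S_eq]
  exact V11306.SpMod.norm_ne (p := 107) (m := 3) (N := 321) (l := 643) (g := 49) (c := 8667)
    (r := 27) (by norm_num) (by norm_num) (by norm_num) he (by norm_num) (by norm_num) prim hne hx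

/-- The prime `p = 107` satisfies `p ≡ 3 (mod 4)` and its least solution is `(12, 2)`, but
`S_p(ω)` is not of the form `u (12 √3 - 2 √p) / 2`, and `S_p(ω⁻¹)` is not of the form
`u (12 √3 + 2 √p) / 2`, with a complex number `u` of absolute value `1`. -/
theorem result : Nat.Prime 107 ∧ 107 % 4 = 3 ∧ IsLeastSolution 107 12 2 ∧
    (∀ u : ℂ, ‖u‖ = 1 → S 107 ω ≠ u * ((12 * (Real.sqrt 3 : ℂ) - 2 * (Real.sqrt 107 : ℂ)) / 2)) ∧
    (∀ u : ℂ, ‖u‖ = 1 →
      S 107 ω⁻¹ ≠ u * ((12 * (Real.sqrt 3 : ℂ) + 2 * (Real.sqrt 107 : ℂ)) / 2)) := by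
  have h3 : Real.sqrt 3 ^ 2 = 3 := Real.sq_sqrt (by norm_num)
  have h107 : Real.sqrt 107 ^ 2 = 107 := Real.sq_sqrt (by norm_num)
  refine ⟨by norm_num, by norm_num, least, ?_, ?_⟩
  · intro u hu h
    refine crit 107 (by norm_num) (by decide +kernel) (x := ω) ?_ ?_
    · rw [ω, ← Complex.exp_nat_mul]
      congr 1
      push_cast
      ring
    · have e : ‖S 107 ω‖ ^ 2 = (6 * Real.sqrt 3 - Real.sqrt 107) ^ 2 := by
        rw [h, norm_mul, hu, one_mul]
        have : ((12 * (Real.sqrt 3 : ℂ) - 2 * (Real.sqrt 107 : ℂ)) / 2) =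
            ((6 * Real.sqrt 3 - Real.sqrt 107 : ℝ) : ℂ) := by push_cast; ring
        rw [this, Complex.norm_real, Real.norm_eq_abs, sq_abs]
      rw [e]
      push_cast
      have : (6 * Real.sqrt 3 - Real.sqrt 107) ^ 2 = 215 - 12 * (Real.sqrt 3 * Real.sqrt 107) := by
        linear_combination 36 * h3 + h107
      rw [this]
      linear_combination 144 * (Real.sqrt 107) ^ 2 * h3 + 432 * h107
  · intro u hu h
    refine crit 214 (by norm_num) (by decide +kernel) (x := ω⁻¹) ?_ ?_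
    · rw [ω, ← Complex.exp_nat_mul, ← Complex.exp_neg]
      rw [Complex.exp_eq_exp_iff_exists_int]
      refine ⟨-1, ?_⟩
      push_cast
      ring
    · have e : ‖S 107 ω⁻¹‖ ^ 2 = (6 * Real.sqrt 3 + Real.sqrt 107) ^ 2 := by
        rw [h, norm_mul, hu, one_mul]
        have : ((12 * (Real.sqrt 3 : ℂ) + 2 * (Real.sqrt 107 : ℂ)) / 2) =
            ((6 * Real.sqrt 3 + Real.sqrt 107 : ℝ) : ℂ) := by push_cast; ring
        rw [this, Complex.norm_real, Real.norm_eq_abs, sq_abs]
      rw [e]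
      push_cast
      have : (6 * Real.sqrt 3 + Real.sqrt 107) ^ 2 = 215 + 12 * (Real.sqrt 3 * Real.sqrt 107) := by
        linear_combination 36 * h3 + h107
      rw [this]
      linear_combination 144 * (Real.sqrt 107) ^ 2 * h3 + 432 * h107

end Pool.Agent.Results.MP_06877e_nt.FailsAt107
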